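import Pool.Agent.H88.GJ.Uni

/-!
# GJ, Gal: a field automorphism fixing the `a_i` acts on the relations between points

PROOF.  The automorphism `s` acts on the coordinate ring by `u + w y ↦ s(u) + s(w) y` and maps the ideal of the
point `(x, y)` to that of `(s x, s y)`, and principal ideals to principal ideals.
-/

set_option autoImplicit false

namespace GJ

open Polynomial HK

variable {K : Type*} [Field K] {g : ℕ} (a : Fin (2 * g + 1) → K)

theorem gal_FF (s : K ≃+* K) (hs : ∀ i, s (a i) = a i) :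
    (FF a).map (s : K →+* K) = FF a := by
  unfold FF
  rw [Polynomial.map_prod]
  refine Finset.prod_congr rfl fun i _ => ?_
  rw [Polynomial.map_sub, map_X, map_C]
  congr 2
  exact hs i

theorem gal_eval₂ (s : K ≃+* K) (hs : ∀ i, s (a i) = a i) :
    (X ^ 2 - C (FF a) : K[X][X]).eval₂
      ((AdjoinRoot.of (X ^ 2 - C (FF a) : K[X][X])).comp (mapRingHom (s : K →+* K)))
      (AdjoinRoot.root (X ^ 2 - C (FF a) : K[X][X])) = 0 := by
  rw [eval₂_sub, eval₂_pow, eval₂_X, eval₂_C, RingHom.comp_apply, coe_mapRingHom, gal_FF a s hs,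
    cra_root_sq, sub_self]

/-- The action on the coordinate ring. -/
noncomputable def galHom (s : K ≃+* K) (hs : ∀ i, s (a i) = a i) : CR (FF a) →+* CR (FF a) :=
  AdjoinRoot.lift
    ((AdjoinRoot.of (X ^ 2 - C (FF a) : K[X][X])).comp (mapRingHom (s : K →+* K)))
    (AdjoinRoot.root (X ^ 2 - C (FF a) : K[X][X])) (gal_eval₂ a s hs)

theorem galHom_el (s : K ≃+* K) (hs : ∀ i, s (a i) = a i) (u w : K[X]) :
    galHom a s hs (el (FF a) u w) =
      el (FF a) (u.map (s : K →+* K)) (w.map (s : K →+* K)) := by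
  unfold galHom el
  rw [map_add, map_mul, AdjoinRoot.lift_of, AdjoinRoot.lift_of, AdjoinRoot.lift_root]
  rfl

theorem gal_onC (s : K ≃+* K) (hs : ∀ i, s (a i) = a i) {S : Multiset (K × K)} (hS : OnC a S) :
    OnC a (S.map (Prod.map s s)) := by
  intro Q hQ
  obtain ⟨P, hP, rfl⟩ := Multiset.mem_map.1 hQ
  have h := congrArg s (hS P hP)
  rw [map_pow] at h
  show (s P.2) ^ 2 = (FF a).eval (s P.1)
  rw [h]
  conv_rhs => rw [← gal_FF a s hs]
  exact (eval_map_apply (s : K →+* K) P.1).symm

theorem gal_pI (s : K ≃+* K) (hs : ∀ i, s (a i) = a i) (x y : K) :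
    (pI (FF a) x y).map (galHom a s hs) = pI (FF a) (s x) (s y) := by
  unfold pI
  rw [Ideal.map_span, Set.image_pair, galHom_el, galHom_el]
  congr 2
  · simp
  · simp

theorem gal_prod (s : K ≃+* K) (hs : ∀ i, s (a i) = a i) (S : Multiset (K × K)) :
    ((S.map fun P => pI (FF a) P.1 P.2).prod).map (galHom a s hs) =
      ((S.map (Prod.map s s)).map fun P => pI (FF a) P.1 P.2).prod := by
  induction S using Multiset.induction_on with
  | empty =>
    simp only [Multiset.map_zero, Multiset.prod_zero, Ideal.one_eq_top]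
    exact Ideal.map_top _
  | cons P S ih =>
    simp only [Multiset.map_cons, Multiset.prod_cons]
    rw [Ideal.map_mul, ih, gal_pI a s hs]
    rfl

variable [NeZero (2 : K)] [Fact (Function.Injective a)]

theorem gal_one (s : K ≃+* K) (hs : ∀ i, s (a i) = a i) {S : Multiset (K × K)}
    (_hS : OnC a S) (h : clS a S = 1) : clS a (S.map (Prod.map s s)) = 1 := by
  obtain ⟨u, w, h0, h1⟩ := (cl_prod_eq_one_iff a S).1 h
  refine (cl_prod_eq_one_iff a (S.map (Prod.map s s))).2
    ⟨u.map (s : K →+* K), w.map (s : K →+* K), ?_, ?_⟩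
  · rcases h0 with h0 | h0
    · exact Or.inl ((Polynomial.map_ne_zero_iff (RingHom.injective _)).2 h0)
    · exact Or.inr ((Polynomial.map_ne_zero_iff (RingHom.injective _)).2 h0)
  · rw [← gal_prod a s hs, h1, Ideal.map_span, Set.image_singleton, galHom_el]

omit [NeZero (2 : K)] in
theorem gal_wS (s : K ≃+* K) (S : Multiset (K × K)) :
    (wS S).map (Prod.map s s) = wS (S.map (Prod.map s s)) := by
  unfold wS
  rw [Multiset.map_map, Multiset.map_map]
  refine Multiset.map_congr rfl fun P _ => ?_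
  show (s P.1, s (-P.2)) = (s P.1, -s P.2)
  rw [map_neg]

theorem gal_eq (s : K ≃+* K) (hs : ∀ i, s (a i) = a i) {S S' : Multiset (K × K)}
    (hS : OnC a S) (hS' : OnC a S') (h : clS a S = clS a S') :
    clS a (S.map (Prod.map s s)) = clS a (S'.map (Prod.map s s)) := by
  have h1 : clS a (S + wS S') = 1 := by
    rw [clS_add, clS_wS a hS', h, mul_inv_cancel]
  have h2 := gal_one a s hs ((onC_add a).2 ⟨hS, onC_wS a hS'⟩) h1
  rw [Multiset.map_add, clS_add, gal_wS, clS_wS a (gal_onC a s hs hS')] at h2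
  exact mul_inv_eq_one.1 h2

end GJ
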