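import Pool.Agent.H88.GJ.Uni

/-!
# GJ, Rep: every class of the coordinate ring is the class of at most `g` points

PROOF.  Every ideal is a product of ideals of points.  Among the `g + 2` functions `1, x, ..., x ^ g, y` some
nonzero combination `z = u + c y` lies in the product of `g + 1` given ideals of points (each factor costs at most one
dimension: `rep_step`); the norm `u ^ 2 - c ^ 2 F` has degree at most `2 g + 1`, so the divisor of `z` is the `g + 1` points
and at most `g` others, whose conjugates have the class of the given points.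
-/

set_option autoImplicit false

namespace GJ

open Polynomial HK

section

variable {K : Type*} [Field K] [NeZero (2 : K)] {g : ℕ} (a : Fin (2 * g + 1) → K)
  [Fact (Function.Injective a)]

omit [NeZero (2 : K)] in
theorem rep_smul (F : K[X]) (c : K) (z : CR F) : c • z = el F (C c) 0 * z := by
  rw [Algebra.smul_def, AdjoinRoot.algebraMap_eq']
  congr 1
  unfold el
  rw [map_zero, zero_mul, add_zero]
  rfl

/-- One factor costs at most one dimension. -/
theorem rep_step (I : Ideal (CR (FF a))) (hI : I ≠ ⊥) {x y : K} (h : y ^ 2 = (FF a).eval x)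
    {θ : CR (FF a)} (hθ : θ ∈ I) (hθ' : θ ∉ I * pI (FF a) x y) {z : CR (FF a)} (hz : z ∈ I) :
    ∃ ρ : K, z - ρ • θ ∈ I * pI (FF a) x y := by
  have hmax := pI_isMaximal (FF a) h
  set P := pI (FF a) x y with hP
  have hIP : I * P ≤ I := Ideal.mul_le_left
  have hJI : Ideal.span {θ} ⊔ I * P ≤ I :=
    sup_le (by rw [Ideal.span_singleton_le_iff_mem]; exact hθ) hIP
  obtain ⟨L, hL⟩ := Ideal.dvd_iff_le.2 hJI
  have hPL : P ≤ L := by
    have h1 : I * P ≤ I * L := by
      rw [← hL]
      exact le_sup_right
    rw [← Ideal.dvd_iff_le] at h1 ⊢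
    exact (mul_dvd_mul_iff_left (by simpa using hI)).1 h1
  have hLtop : L = ⊤ := by
    by_contra hne
    have e := hmax.eq_of_le hne hPL
    apply hθ'
    rw [e, ← hL]
    exact Ideal.mem_sup_left (Ideal.mem_span_singleton_self θ)
  rw [hLtop, Ideal.mul_top] at hL
  rw [← hL] at hz
  obtain ⟨s, hs, t, ht, hst⟩ := Submodule.mem_sup.1 hz
  obtain ⟨r, rfl⟩ := Ideal.mem_span_singleton'.1 hs
  obtain ⟨u, w, rfl⟩ := el_surj (FF a) r
  refine ⟨u.eval x + w.eval x * y, ?_⟩
  have hr : el (FF a) u w - el (FF a) (C (u.eval x + w.eval x * y)) 0 ∈ P := by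
    have e : el (FF a) u w - el (FF a) (C (u.eval x + w.eval x * y)) 0 =
        el (FF a) (u - C (u.eval x + w.eval x * y)) w := by
      rw [sub_eq_iff_eq_add, el_add]
      congr 1
      · ring
      · ring
    rw [e, hP, pI_mem (FF a) h]
    simp only [eval_sub, eval_C]
    ring
  have e2 : z - (u.eval x + w.eval x * y) • θ =
      θ * (el (FF a) u w - el (FF a) (C (u.eval x + w.eval x * y)) 0) + t := by
    rw [rep_smul, ← hst]
    ring
  rw [e2]
  exact Ideal.add_mem _ (Ideal.mul_mem_mul hθ hr) ht

omit [NeZero (2 : K)] in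
theorem rep_prod_ne_bot (S : Multiset (K × K)) :
    (S.map fun P => pI (FF a) P.1 P.2).prod ≠ ⊥ := by
  refine Multiset.prod_ne_zero fun h => ?_
  obtain ⟨P, _, hP⟩ := Multiset.mem_map.1 h
  exact pI_ne_bot (FF a) P.1 P.2 hP

theorem rep_finrank (V : Submodule K (CR (FF a))) [Module.Finite K V] (S : Multiset (K × K))
    (hS : OnC a S) :
    Module.finrank K V ≤ Module.finrank K
      (V ⊓ ((S.map fun P => pI (FF a) P.1 P.2).prod).restrictScalars K : Submodule K (CR (FF a))) +
      Multiset.card S := by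
  induction S using Multiset.induction_on with
  | empty =>
    have : ((1 : Ideal (CR (FF a))).restrictScalars K : Submodule K (CR (FF a))) = ⊤ := by
      rw [Ideal.one_eq_top]
      rfl
    rw [Multiset.map_zero, Multiset.prod_zero, Multiset.card_zero, add_zero, this, inf_top_eq]
  | cons P S ih =>
    rw [onC_cons] at hS
    have ih := ih hS.2
    set I := (S.map fun P => pI (FF a) P.1 P.2).prod with hI
    have e1 : ((P ::ₘ S).map fun P => pI (FF a) P.1 P.2).prod = I * pI (FF a) P.1 P.2 := by
      rw [Multiset.map_cons, Multiset.prod_cons, mul_comm]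
    rw [e1, Multiset.card_cons]
    set A : Submodule K (CR (FF a)) := V ⊓ (I * pI (FF a) P.1 P.2).restrictScalars K with hA
    set B : Submodule K (CR (FF a)) := V ⊓ I.restrictScalars K with hB
    have key : Module.finrank K B ≤ Module.finrank K A + 1 := by
      have hBfin : Module.Finite K B := Submodule.finiteDimensional_of_le (inf_le_left : B ≤ V)
      have hAfin : Module.Finite K A := Submodule.finiteDimensional_of_le (inf_le_left : A ≤ V)
      by_cases hBA : B ≤ A
      · exact (Submodule.finrank_mono hBA).trans (Nat.le_succ _)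
      · obtain ⟨θ, hθB, hθA⟩ := SetLike.not_le_iff_exists.1 hBA
        have hθI : θ ∈ I := hθB.2
        have hθI' : θ ∉ I * pI (FF a) P.1 P.2 := fun hc => hθA ⟨hθB.1, hc⟩
        have hle : B ≤ A ⊔ Submodule.span K {θ} := by
          intro z hz
          obtain ⟨ρ, hρ⟩ := rep_step a I (rep_prod_ne_bot a S) hS.1 hθI hθI' hz.2
          refine Submodule.mem_sup.2 ⟨z - ρ • θ, ⟨?_, hρ⟩, ρ • θ, ?_, ?_⟩
          · exact V.sub_mem hz.1 (V.smul_mem ρ hθB.1)
          · exact Submodule.smul_mem _ _ (Submodule.mem_span_singleton_self θ)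
          · exact sub_add_cancel z (ρ • θ)
        calc Module.finrank K B ≤ Module.finrank K (A ⊔ Submodule.span K {θ} : Submodule K (CR (FF a))) :=
              Submodule.finrank_mono hle
          _ ≤ Module.finrank K A + Module.finrank K (Submodule.span K {θ}) :=
              Submodule.finrank_add_le_finrank_add_finrank _ _
          _ ≤ Module.finrank K A + 1 := by
              gcongr
              exact (finrank_span_le_card ({θ} : Set (CR (FF a)))).trans (by simp)
    omega

/-- The functions `u + c y`, `deg u ≤ g`. -/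
noncomputable def repMap (F : K[X]) (n : ℕ) : (degreeLT K n × K) →ₗ[K] CR F where
  toFun p := el F (p.1 : K[X]) (C p.2)
  map_add' p q := by
    rw [el_add]
    congr 1
    simp
  map_smul' c p := by
    rw [RingHom.id_apply, rep_smul, el_mul]
    congr 1
    · simp [smul_eq_C_mul]
    · simp

omit [NeZero (2 : K)] in
theorem repMap_inj (F : K[X]) (n : ℕ) : Function.Injective (repMap F n) := by
  intro p q h
  obtain ⟨h1, h2⟩ := el_inj F h
  exact Prod.ext (Subtype.ext h1) (C_injective h2)

/-- A nonzero function `u + c y`, `deg u ≤ g`, through `g + 1` points. -/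
theorem rep_exists (S : Multiset (K × K)) (hS : OnC a S) (hc : Multiset.card S = g + 1) :
    ∃ (u : K[X]) (c : K), (u ≠ 0 ∨ c ≠ 0) ∧ u.natDegree ≤ g ∧
      el (FF a) u (C c) ∈ (S.map fun P => pI (FF a) P.1 P.2).prod := by
  set V := LinearMap.range (repMap (FF a) (g + 1)) with hV
  have hfinE : Module.Finite K (degreeLT K (g + 1)) :=
    Module.Finite.equiv (degreeLTEquiv K (g + 1)).symm
  have hV1 : Module.finrank K V = g + 2 := by
    rw [hV, LinearMap.finrank_range_of_inj (repMap_inj (FF a) (g + 1)), Module.finrank_prod,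
      (degreeLTEquiv K (g + 1)).finrank_eq, Module.finrank_fin_fun, Module.finrank_self]
  have h1 := rep_finrank a V S hS
  rw [hV1, hc] at h1
  have h2 : 0 < Module.finrank K
      (V ⊓ ((S.map fun P => pI (FF a) P.1 P.2).prod).restrictScalars K : Submodule K (CR (FF a))) := by
    omega
  have hne : (V ⊓ ((S.map fun P => pI (FF a) P.1 P.2).prod).restrictScalars K :
      Submodule K (CR (FF a))) ≠ ⊥ := by
    intro h0
    rw [h0, finrank_bot] at h2
    exact lt_irrefl _ h2
  obtain ⟨z, ⟨hzV, hzI⟩, hz0⟩ := Submodule.exists_mem_ne_zero_of_ne_bot hne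
  obtain ⟨⟨u, c⟩, hp⟩ := hzV
  have hz : el (FF a) (u : K[X]) (C c) = z := hp
  refine ⟨u, c, ?_, ?_, ?_⟩
  · by_contra hcon
    push Not at hcon
    apply hz0
    rw [← hz, hcon.1, hcon.2, C_0, el_zero]
  · have := mem_degreeLT.1 u.2
    by_cases hu : (u : K[X]) = 0
    · rw [hu, natDegree_zero]
      exact Nat.zero_le _
    · rw [degree_eq_natDegree hu] at this
      have h3 : (u : K[X]).natDegree < g + 1 := by exact_mod_cast this
      omega
  · rw [hz]
    exact hzI

theorem rep_reduce [IsAlgClosed K] (S : Multiset (K × K)) (hS : OnC a S)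
    (hc : Multiset.card S = g + 1) :
    ∃ T : Multiset (K × K), OnC a T ∧ Multiset.card T ≤ g ∧ clS a T = clS a S := by
  obtain ⟨u, c, h0, hu, hz⟩ := rep_exists a S hS hc
  have h0' : u ≠ 0 ∨ (C c : K[X]) ≠ 0 := by
    rcases h0 with h0 | h0
    · exact Or.inl h0
    · exact Or.inr (C_ne_zero.2 h0)
  obtain ⟨T, hT, hT1, hT2⟩ := fct a u (C c) h0'
  have hle : (T.map fun P => pI (FF a) P.1 P.2).prod ≤ (S.map fun P => pI (FF a) P.1 P.2).prod := by
    rw [← hT1, Ideal.span_singleton_le_iff_mem]
    exact hz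
  have hST := fct_unique a T S hT hS hle
  obtain ⟨T', rfl⟩ := Multiset.le_iff_exists_add.1 hST
  have hcard : Multiset.card (S + T') ≤ 2 * g + 1 := by
    have e1 : Multiset.card (S + T') = Multiset.card (u ^ 2 - (C c) ^ 2 * FF a).roots := by
      rw [← hT2, Multiset.card_map]
    rw [e1]
    refine (card_roots' _).trans ?_
    refine (natDegree_sub_le _ _).trans ?_
    apply max_le
    · refine (natDegree_pow_le).trans ?_
      have := Nat.mul_le_mul_left 2 hu
      omega
    · refine (natDegree_mul_le).trans ?_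
      rw [cra_FF_natDegree, ← C_pow, natDegree_C, zero_add]
  have hT'on : OnC a T' := ((onC_add a).1 hT).2
  have hcl : clS a (S + T') = 1 := (cl_prod_eq_one_iff a (S + T')).2 ⟨u, C c, h0', hT1.symm⟩
  refine ⟨wS T', onC_wS a hT'on, ?_, ?_⟩
  · rw [card_wS]
    rw [Multiset.card_add] at hcard
    omega
  · rw [clS_wS a hT'on]
    rw [clS_add] at hcl
    exact (eq_inv_of_mul_eq_one_left hcl).symm

/-- Every class is the class of a multiset of points. -/
theorem rep_clS [IsAlgClosed K] (c : ClassGroup (CR (FF a))) :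
    ∃ S : Multiset (K × K), OnC a S ∧ clS a S = c := by
  obtain ⟨I, hI⟩ := ClassGroup.mk0_surjective c
  have hI0 : (I : Ideal (CR (FF a))) ≠ ⊥ := nonZeroDivisors.ne_zero I.2
  have hM : ∀ P ∈ UniqueFactorizationMonoid.normalizedFactors (I : Ideal (CR (FF a))),
      ∃ x y : K, y ^ 2 = (FF a).eval x ∧ P = pI (FF a) x y := by
    intro P hP
    have hpr := UniqueFactorizationMonoid.prime_of_normalized_factor P hP
    have hPb : P ≠ ⊥ := hpr.ne_zero
    have hPp : P.IsPrime := Ideal.isPrime_of_prime hpr
    exact exists_pI (FF a) P (hPp.isMaximal hPb) hPb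
  obtain ⟨S, hS, hSM⟩ := Ck_lift a _ hM
  have hprod : (I : Ideal (CR (FF a))) = (S.map fun P => pI (FF a) P.1 P.2).prod := by
    rw [hSM]
    exact (Ideal.prod_normalizedFactors_eq_self hI0).symm
  refine ⟨S, hS, ?_⟩
  rw [← hI]
  set sub : K × K → nonZeroDivisors (Ideal (CR (FF a))) := fun P =>
    ⟨pI (FF a) P.1 P.2, mem_nonZeroDivisors_of_ne_zero (pI_ne_bot (FF a) P.1 P.2)⟩ with hsub
  have e1 : clS a S = ClassGroup.mk0 (S.map sub).prod := by
    unfold clS
    rw [map_multiset_prod, Multiset.map_map]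
    rfl
  have e2 : (((S.map sub).prod : nonZeroDivisors (Ideal (CR (FF a)))) : Ideal (CR (FF a))) =
      (S.map fun P => pI (FF a) P.1 P.2).prod := by
    rw [Submonoid.coe_multiset_prod, Multiset.map_map]
    rfl
  rw [e1]
  congr 1
  apply Subtype.ext
  rw [e2, hprod]

/-- Every class is the class of at most `g` points. -/
theorem rep_gen [IsAlgClosed K] (c : ClassGroup (CR (FF a))) :
    ∃ S : Multiset (K × K), OnC a S ∧ Multiset.card S ≤ g ∧ clS a S = c := by
  obtain ⟨S, hS, rfl⟩ := rep_clS a c
  induction S using Multiset.induction_on with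
  | empty => exact ⟨0, onC_zero a, by simp, rfl⟩
  | cons P S ih =>
    rw [onC_cons] at hS
    obtain ⟨T, hT, hTc, hTe⟩ := ih hS.2
    have hon : OnC a (P ::ₘ T) := (onC_cons a).2 ⟨hS.1, hT⟩
    have hcl : clS a (P ::ₘ T) = clS a (P ::ₘ S) := by
      rw [clS_cons, clS_cons, hTe]
    rcases Nat.lt_or_ge (Multiset.card T) g with hlt | hge
    · refine ⟨P ::ₘ T, hon, ?_, hcl⟩
      rw [Multiset.card_cons]
      omega
    · obtain ⟨T', h1, h2, h3⟩ := rep_reduce a (P ::ₘ T) hon (by rw [Multiset.card_cons]; omega)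
      exact ⟨T', h1, h2, h3.trans hcl⟩

end

/-- Genus two: every class is the class of at most two points. -/
theorem rep {K : Type*} [Field K] [IsAlgClosed K] [CharZero K] (a : Fin (2 * 2 + 1) → K)
    [Fact (Function.Injective a)] (c : ClassGroup (CR (FF a))) :
    ∃ S : Multiset (K × K), OnC a S ∧ Multiset.card S ≤ 2 ∧ clS a S = c :=
  rep_gen a c

end GJ
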